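import Pool.Agent.Helper72.LSr.E1

/-!
# LR-E3: `Vl_joinA`, `Vl_joinB`, `form_line`
-/

namespace Pool.Agent.Helper82.LSr

open Finset
open scoped Classical
open Pool.Agent.Helper72.LSr

theorem h82_nu_joinA (k A B : ℕ) (n : ℤ) : nu k (A + 1) B (n + k) = nu k A B n := by
  unfold nu; rw [EE_sA]; ring

theorem h82_nu_joinB (k A B : ℕ) (n : ℤ) : nu k A (B + 1) (n + (k + 1)) = nu k A B n := by
  unfold nu; rw [EE_sB]; ring

theorem h82_th_joinA (k A B : ℕ) (n m : ℤ) :
    th k (A + 1) B (n + k) (m + k * n) = th k A B n m := by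
  unfold th; rw [h82_nu_joinA, EE_sA, es3_sA]; unfold nu; ring

theorem h82_th_joinB (k A B : ℕ) (n m : ℤ) :
    th k A (B + 1) (n + (k + 1)) (m + (k + 1) * n) = th k A B n m := by
  unfold th; rw [h82_nu_joinB, EE_sB, es3_sB]; unfold nu; ring

/-- join with a part of size `k` -/
theorem Vl_joinA (k A B i : ℕ) (n m : ℤ) :
    Vl k (A + 1) B (i + 1) (n + k) (m + k * n) = Vl k A B (i + 1) n m + k * Vl k A B i n m := by
  unfold Vl
  rw [h82_nu_joinA, h82_th_joinA, show i + 1 + 2 = (i + 2) + 1 from rfl,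
    show i + 1 + 1 = (i + 1) + 1 from rfl, es_sA, es_sA, es_sA]
  ring

theorem Vl_joinB (k A B i : ℕ) (n m : ℤ) :
    Vl k A (B + 1) (i + 1) (n + (k + 1)) (m + (k + 1) * n)
      = Vl k A B (i + 1) n m + (k + 1) * Vl k A B i n m := by
  unfold Vl
  rw [h82_nu_joinB, h82_th_joinB, show i + 1 + 2 = (i + 2) + 1 from rfl,
    show i + 1 + 1 = (i + 1) + 1 from rfl, es_sB, es_sB, es_sB]
  ring

/-- the statement of `form_line` for one line and all `n`, `m` -/
theorem h82_line_zero (k n : ℕ) (m : ℤ) (hk : 1 ≤ k) (hM : Mm k 0 0 n ≤ k)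
    (hr : 0 ≤ rho k 0 0 n m) (hg : 0 ≤ gg k 0 0 n m) :
    ∃ (W : Type) (_ : Fintype W) (Γ : SimpleGraph W), Fintype.card W = n ∧
      (∀ i, K Γ univ (i + 1) = Vl k 0 0 i n m) ∧ PartiteForm Γ := by
  have hE : EE k 0 0 = 0 := by unfold EE; simp
  have hnu : nu k 0 0 n = n := by unfold nu; rw [hE]; ring
  have he3 : es k 0 0 3 = 0 := es_empty k 1
  have hth : th k 0 0 n m = m := by unfold th; rw [hE, he3]; ring
  unfold Mm at hM
  unfold rho at hr
  unfold gg at hg
  rw [hnu] at hM hr hg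
  rw [hth] at hr hg
  have hkn : k + 1 ≤ n := by
    have : (k : ℤ) + 1 ≤ n := by linarith
    exact_mod_cast this
  obtain ⟨b, hb⟩ : ∃ b, n = k + b := ⟨n - k, by omega⟩
  have hb1 : 1 ≤ b := by omega
  subst hb
  push_cast at hr hg
  have hb1' : (1 : ℤ) ≤ b := by exact_mod_cast hb1
  have hm0 : 0 ≤ m := by
    have : (0 : ℤ) ≤ (k + 1) * ((b : ℤ) - 1) := mul_nonneg (by positivity) (by linarith)
    nlinarith
  obtain ⟨m', rfl⟩ := Int.eq_ofNat_of_zero_le hm0
  have hm1 : m' ≤ k * b := by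
    have : (m' : ℤ) ≤ k * b := by nlinarith
    exact_mod_cast this
  obtain ⟨W, hW, Γ, h1, h2, h3, h4⟩ := form_bip k b m' hk hm1
  refine ⟨W, hW, Γ, h1, fun i => ?_, h4⟩
  rcases i with _ | _ | i
  · rw [Vl_zero, show 0 + 1 = 1 from rfl, K_one, card_univ, h1]
  · rw [show 0 + 1 = 1 from rfl, Vl_one, show 1 + 1 = 2 from rfl, h2]
  · rw [show i + 1 + 1 + 1 = i + 3 from rfl, h3]
    unfold Vl
    rw [show i + 1 + 1 + 2 = (i + 2) + 2 from rfl, show i + 1 + 1 + 1 = (i + 1) + 2 from rfl,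
      show i + 1 + 1 = i + 2 from rfl, es_empty, es_empty, es_empty]
    ring

/-- every valid line with `M ≤ k` is attained -/
theorem form_line (k A B n : ℕ) (m : ℤ) (hk : 1 ≤ k) (hM : Mm k A B n ≤ k)
    (hr : 0 ≤ rho k A B n m) (hg : 0 ≤ gg k A B n m) :
    ∃ (W : Type) (_ : Fintype W) (Γ : SimpleGraph W), Fintype.card W = n ∧
      (∀ i, K Γ univ (i + 1) = Vl k A B i n m) ∧ PartiteForm Γ := by
  induction A generalizing n m with
  | zero =>
    induction B generalizing n m with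
    | zero => exact h82_line_zero k n m hk hM hr hg
    | succ B ih =>
      have hkn : k + 1 ≤ n := by
        have h1 := EE_nonneg k 0 B
        unfold Mm nu at hM
        rw [EE_sB] at hM
        have : (k : ℤ) + 1 ≤ n := by
          have : (0 : ℤ) ≤ k := by positivity
          linarith
        exact_mod_cast this
      obtain ⟨n', rfl⟩ : ∃ n', n = n' + (k + 1) := ⟨n - (k + 1), by omega⟩
      obtain ⟨m', rfl⟩ : ∃ m', m = m' + (k + 1) * (n' : ℤ) := ⟨m - (k + 1) * n', by ring⟩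
      push_cast at hM hr hg
      unfold Mm at hM
      unfold rho at hr
      unfold gg at hg
      rw [h82_nu_joinB] at hM hr hg
      rw [h82_th_joinB] at hr hg
      obtain ⟨W, hW, Γ, h1, h2, h3⟩ := ih n' m' hM hr hg
      obtain ⟨W', hW', Γ', h1', h2', h3'⟩ := form_join Γ h3 (k + 1) (by omega)
      refine ⟨W', hW', Γ', by rw [h1', h1], fun i => ?_, h3'⟩
      rcases i with _ | i
      · rw [Vl_zero, show 0 + 1 = 1 from rfl, K_one, card_univ, h1', h1]
      · rw [h2', show i + 1 + 1 = (i + 1) + 1 from rfl, h2, h2]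
        have := Vl_joinB k 0 B i n' m'
        push_cast
        rw [this]
  | succ A ih =>
    have hkn : k ≤ n := by
      have h1 := EE_nonneg k A B
      unfold Mm nu at hM
      rw [EE_sA] at hM
      have : (k : ℤ) ≤ n := by
        have : (0 : ℤ) ≤ k := by positivity
        linarith
      exact_mod_cast this
    obtain ⟨n', rfl⟩ : ∃ n', n = n' + k := ⟨n - k, by omega⟩
    obtain ⟨m', rfl⟩ : ∃ m', m = m' + k * (n' : ℤ) := ⟨m - k * n', by ring⟩
    push_cast at hM hr hg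
    unfold Mm at hM
    unfold rho at hr
    unfold gg at hg
    rw [h82_nu_joinA] at hM hr hg
    rw [h82_th_joinA] at hr hg
    obtain ⟨W, hW, Γ, h1, h2, h3⟩ := ih n' m' hM hr hg
    obtain ⟨W', hW', Γ', h1', h2', h3'⟩ := form_join Γ h3 k hk
    refine ⟨W', hW', Γ', by rw [h1', h1], fun i => ?_, h3'⟩
    rcases i with _ | i
    · rw [Vl_zero, show 0 + 1 = 1 from rfl, K_one, card_univ, h1', h1]
    · rw [h2', show i + 1 + 1 = (i + 1) + 1 from rfl, h2, h2]
      have := Vl_joinA k A B i n' m'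
      push_cast
      rw [this]

end Pool.Agent.Helper82.LSr
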