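import Pool.Agent.Helper72.LSr.NumDef
import Pool.Agent.Helper7.LSr.Num

/-!
# LR-F2: the numerical lemmas `xm1` and `nc4` (translation of Helper7's lemmas).
-/

namespace Pool.Agent.Helper82.LSr

open Pool.Agent.Helper72.LSr
open Pool.Agent.Helper7.LSr

variable {k M X D Y ρ mm : ℤ}

theorem h82_toNumHyp (h : NumH k M X D Y ρ mm) :
    NumHyp k D Y (D - Y) X M ρ (max (-ρ) 0) mm (D - Y - ρ - mm) :=
  ⟨h.hD, by ring, rfl, h.hY, by linarith [h.hε], rfl, h.hZ, h.hX, by linarith [h.hm], h.hk,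
    h.hcase⟩

theorem xm1 (h : NumH k M X D Y ρ mm)
    (h0 : 0 < k * X * Y * D + (2 * k + 3) * Y * (D - Y - ρ - mm) - (3 * k + 3) * max (-ρ) 0 * D) :
    -1 ≤ X := by
  refine (h82_toNumHyp h).xm1 h.hm ?_
  linarith

theorem nc4 (h : NumH k M X D Y ρ mm) (hX : -1 ≤ X) :
    k * D * (k + 1 - D) +
      (k * X * Y * D + (2 * k + 3) * Y * (D - Y - ρ - mm) - (3 * k + 3) * max (-ρ) 0 * D)
      ≤ k * D * (4 * (D - Y) + 1) := by
  have := (h82_toNumHyp h).nc4 h.hm hX h.hJ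
  linarith

end Pool.Agent.Helper82.LSr
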